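import Pool.Agent.helper47.MSW.SpecB
import Pool.Agent.helper47.MSW.SpecD

/-! # Row HYB of project msw: change the blocks one after the other -/

set_option autoImplicit false

namespace Pool.Agent.MSW

open Equiv Finset Function MeasureTheory Pool.Agent.helper48.PP
open Pool.Agent.DSW (Pr Has GP wt)
open scoped ENNReal Classical

noncomputable section

theorem HYB_tl_append (X Y : List Pat) : tl (X ++ Y) = tl X + tl Y := by
  unfold tl
  rw [List.map_append, List.sum_append]

theorem HYB_tl_blk (s : ℕ) (ε : Bool) : tl (Blk s ε) = tl (Iz s) + 2 + tl (Iz s) := by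
  unfold Blk
  rw [HYB_tl_append, HYB_tl_append]
  have h : tl [sw ε] = 2 := by cases ε <;> rfl
  rw [h]

theorem HYB_Lst_cons (a : ℕ × Bool) (L : List (ℕ × Bool)) :
    Lst (a :: L) = Blk a.1 a.2 ++ Lst L := by
  unfold Lst
  rw [List.flatMap_cons]

theorem HYB_flp_cons (a : ℕ × Bool) (L : List (ℕ × Bool)) :
    flp (a :: L) = (a.1, !a.2) :: flp L := by
  unfold flp
  rw [List.map_cons]

theorem HYB_Lst_flp_cons (a : ℕ × Bool) (L : List (ℕ × Bool)) :
    Lst (flp (a :: L)) = Blk a.1 (!a.2) ++ Lst (flp L) := by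
  rw [HYB_flp_cons, HYB_Lst_cons]

theorem HYB_tl_flp (L : List (ℕ × Bool)) : tl (Lst (flp L)) = tl (Lst L) := by
  induction L with
  | nil => rfl
  | cons a L ih =>
    rw [HYB_Lst_flp_cons, HYB_Lst_cons, HYB_tl_append, HYB_tl_append, HYB_tl_blk, HYB_tl_blk, ih]

theorem HYB_adm_append (M : ℕ) (X Y : List Pat) (hX : Adm M X) (hY : Adm M Y) : Adm M (X ++ Y) := by
  intro b hb
  rcases List.mem_append.1 hb with h | h
  · exact hX b h
  · exact hY b h

theorem HYB_adm_Lst (hRCZ : RCZ_stmt) (M : ℕ) (hM : 2 ≤ M) (L : List (ℕ × Bool))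
    (hL : ∀ a ∈ L, (a.1 + 1) ^ 2 ≤ M) : Adm M (Lst L) := by
  induction L with
  | nil =>
    intro b hb
    have h : Lst [] = [] := rfl
    rw [h] at hb
    exact absurd hb (List.not_mem_nil)
  | cons a L ih =>
    rw [HYB_Lst_cons]
    refine HYB_adm_append M _ _ (hRCZ.2.2.1 a.1 M a.2 (hL a (List.mem_cons_self)) hM) ?_
    exact ih fun b hb => hL b (List.mem_cons_of_mem _ hb)

theorem HYB_main (hRCZ : RCZ_stmt) (M k : ℕ) (S : Set ℕ) (f : List Pat → ℝ) (lo hi : ℕ → ℝ)
    (hM : 2 ≤ M) (hS : ∀ s ∈ S, (s + 1) ^ 2 ≤ M) (hlh : ∀ s, 0 ≤ lo s ∧ 0 ≤ hi s)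
    (hf : ∀ s ∈ S, ∀ X Y : List Pat, Adm M X → Adm M Y → tl X ≤ k → tl Y ≤ k →
      (1 + lo s) * f (X ++ Blk s false ++ Y) ≤ f (X ++ Blk s true ++ Y) ∧
      f (X ++ Blk s true ++ Y) ≤ (1 + hi s) * f (X ++ Blk s false ++ Y))
    (L : List (ℕ × Bool)) : ∀ X : List Pat, (∀ a ∈ L, a.1 ∈ S) → Adm M X →
    tl X + tl (Lst L) ≤ k →
    f (X ++ Lst (flp L)) * (L.map fun a => if a.2 then 1 + lo a.1 else 1).prod ≤
      f (X ++ Lst L) * (L.map fun a => if a.2 then 1 else 1 + hi a.1).prod := by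
  induction L with
  | nil =>
    intro X _ _ _
    exact le_of_eq rfl
  | cons a L ih =>
    intro X hL hX hk
    have haS : a.1 ∈ S := hL a (List.mem_cons_self)
    have hLS : ∀ b ∈ L, b.1 ∈ S := fun b hb => hL b (List.mem_cons_of_mem _ hb)
    have hflpS : ∀ b ∈ flp L, (b.1 + 1) ^ 2 ≤ M := by
      intro b hb
      unfold flp at hb
      obtain ⟨c, hc, rfl⟩ := List.mem_map.1 hb
      exact hS c.1 (hLS c hc)
    have hR : Adm M (Lst (flp L)) := HYB_adm_Lst hRCZ M hM (flp L) hflpS
    have htl : tl X + (tl (Blk a.1 a.2) + tl (Lst L)) ≤ k := by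
      rw [HYB_Lst_cons, HYB_tl_append] at hk
      exact hk
    have hRk : tl (Lst (flp L)) ≤ k := by
      rw [HYB_tl_flp]; omega
    have hXk : tl X ≤ k := by omega
    have hXb : Adm M (X ++ Blk a.1 a.2) :=
      HYB_adm_append M _ _ hX (hRCZ.2.2.1 a.1 M a.2 (hS a.1 haS) hM)
    have hIH := ih (X ++ Blk a.1 a.2) hLS hXb (by rw [HYB_tl_append]; omega)
    obtain ⟨g1, g2⟩ := hf a.1 haS X (Lst (flp L)) hX hR hXk hRk
    have hP1 : 0 ≤ (L.map fun a => if a.2 then 1 + lo a.1 else 1).prod := by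
      refine List.prod_nonneg ?_
      intro y hy
      obtain ⟨c, _, rfl⟩ := List.mem_map.1 hy
      have h0 := (hlh c.1).1
      split_ifs
      · linarith
      · exact zero_le_one
    rw [HYB_Lst_flp_cons, HYB_Lst_cons, List.map_cons, List.map_cons, List.prod_cons,
      List.prod_cons, ← List.append_assoc, ← List.append_assoc]
    obtain ⟨s, ε⟩ := a
    cases ε with
    | true =>
      simp only [Bool.not_true, if_true] at g1 g2 hIH ⊢
      rw [one_mul]
      refine le_trans ?_ hIH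
      rw [← mul_assoc]
      refine mul_le_mul_of_nonneg_right ?_ hP1
      rw [mul_comm]
      exact g1
    | false =>
      simp only [Bool.not_false, Bool.false_eq_true, if_false] at g1 g2 hIH ⊢
      rw [one_mul]
      have hhi := (hlh s).2
      calc f (X ++ Blk s true ++ Lst (flp L)) *
            (L.map fun a => if a.2 then 1 + lo a.1 else 1).prod
          ≤ ((1 + hi s) * f (X ++ Blk s false ++ Lst (flp L))) *
            (L.map fun a => if a.2 then 1 + lo a.1 else 1).prod :=
            mul_le_mul_of_nonneg_right g2 hP1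
        _ = (1 + hi s) * (f (X ++ Blk s false ++ Lst (flp L)) *
            (L.map fun a => if a.2 then 1 + lo a.1 else 1).prod) := by ring
        _ ≤ (1 + hi s) * (f (X ++ Blk s false ++ Lst L) *
            (L.map fun a => if a.2 then 1 else 1 + hi a.1).prod) :=
            mul_le_mul_of_nonneg_left hIH (by linarith)
        _ = f (X ++ Blk s false ++ Lst L) * ((1 + hi s) *
            (L.map fun a => if a.2 then 1 else 1 + hi a.1).prod) := by ring

theorem HYB (hRCZ : RCZ_stmt) : HYB_stmt := by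
  intro M k S f lo hi hM hS hf0 hlh hf L hL hk
  have h := HYB_main hRCZ M k S f lo hi hM hS hlh hf L [] hL
    (fun b hb => absurd hb (List.not_mem_nil)) (by
      have h0 : tl [] = 0 := rfl
      omega)
  rw [List.nil_append, List.nil_append] at h
  exact h

end

end Pool.Agent.MSW
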